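import Pool.Agent.H123R2.Transport

/-!
Determinant codes: definitions.
-/

set_option autoImplicit false

namespace Pool.Agent.H242R2.Turan

open Finset Pool.Agent.H123R2

section
variable {V : Type} [Fintype V] [DecidableEq V]

/-- `a` is a linear dependency of the vectors `x v`, `v ∈ Z`, and vanishes off `Z` -/
def Dep {q k : ℕ} (x : V → Fin k → ZMod q) (Z : Finset V) (a : V → ZMod q) : Prop :=
  (∀ v, v ∉ Z → a v = 0) ∧ ∑ v, a v • x v = 0

/-- the zeros of `a` in `Z` -/
def zset {q : ℕ} (a : V → ZMod q) (Z : Finset V) : Finset V := Z.filter (fun v => a v = 0)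

/-- the coloops of `Z`: the points in no dependency -/
noncomputable def col {q k : ℕ} (x : V → Fin k → ZMod q) (Z : Finset V) : Finset V :=
  open Classical in Z.filter (fun u => ∀ a : V → ZMod q, Dep x Z a → a u = 0)

/-- the partial covering family: the dependent `k`-sets whose set of coloops belongs to the
given small system -/
noncomputable def TT {q k : ℕ} (x : V → Fin k → ZMod q) (S : ℕ → Finset (Finset V)) :
    Finset (Finset V) :=
  open Classical in (powersetCard k (univ : Finset V)).filter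
    (fun Z => (∃ a : V → ZMod q, a ≠ 0 ∧ Dep x Z a) ∧ col x Z ∈ S (col x Z).card)

/-- the `(k+1)`-sets without a member of `F` -/
def bad (k : ℕ) (F : Finset (Finset V)) : Finset (Finset V) :=
  (powersetCard (k + 1) (univ : Finset V)).filter (fun Y => ∀ Z ∈ F, ¬ Z ⊆ Y)

end

/-- there are partial covering families of `k`-sets with cost `c` and failure probability `p` -/
def PGood (k : ℕ) (c p : ℝ) : Prop :=
  ∀ n : ℕ, ∀ α β : ℝ, 0 ≤ α → 0 ≤ β → ∃ F : Finset (Finset (Fin n)), (∀ Z ∈ F, Z.card = k) ∧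
    α * ((F.card : ℝ) * (k + 1)) + β * ((bad k F).card : ℝ) ≤
      α * (c * (n.choose k : ℝ)) + β * (p * (n.choose (k + 1) : ℝ))

/-- the cost of the determinant code over `F_q` -/
noncomputable def cost (q k : ℕ) (t : ℕ → ℝ) : ℝ :=
  1 / ((q : ℝ) - 1) * ∑ j ∈ range (k + 1), t j * (k.choose j : ℝ) * ((q : ℝ) - 1) ^ (k - j) / (q : ℝ) ^ k +
    1 / ((q : ℝ) ^ 2 - 1)

/-- the failure probability of the determinant code over `F_q` -/
noncomputable def fail (q k : ℕ) : ℝ := (1 - 1 / (q : ℝ)) ^ k + q / ((q : ℝ) ^ 2 - 1)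

/-- upper bounds for the Turán densities `t(j+1, j)` -/
noncomputable def tt (j : ℕ) : ℝ :=
  if j ≤ 1 then 1 else if j = 2 then 1 / 2 else if j = 3 then 4 / 9 else if j ≤ 5 then 5 / 16
  else if j ≤ 7 then 17 / 64 else if j ≤ 9 then 65 / 256 else 257 / 1024

/-- the limit cost -/
noncomputable def Cl (l : ℝ) : ℝ :=
  l * (257 / 1024 + Real.exp (-l) * ∑ j ∈ range 10, (tt j - 257 / 1024) * l ^ j / (j.factorial : ℝ))

end Pool.Agent.H242R2.Turan
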