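import Pool.Agent.H242R2.Turan.Defs
import Pool.Agent.Cov.PNT

/-!
T6: primes of the right size, from the prime number theorem (helper279).
-/

set_option autoImplicit false

namespace Pool.Agent.H242R2.Turan

open Filter Topology

/-- There is a prime in `(x, (1+η) x]` for large `x`. -/
theorem prime_short {η : ℝ} (hη : 0 < η) :
    ∀ᶠ x : ℝ in atTop, ∃ p : ℕ, p.Prime ∧ x < (p : ℝ) ∧ (p : ℝ) ≤ (1 + η) * x := by
  have h1 := Pool.Agent.Cov.PNT.theta_div_tendsto
  have h2 : Tendsto (fun x : ℝ => Chebyshev.theta ((1 + η) * x) / ((1 + η) * x)) atTop (𝓝 1) :=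
    h1.comp (tendsto_id.const_mul_atTop (by positivity))
  have h3 : Tendsto (fun x : ℝ => (1 + η) * (Chebyshev.theta ((1 + η) * x) / ((1 + η) * x)) -
      Chebyshev.theta x / x) atTop (𝓝 ((1 + η) * 1 - 1)) := (h2.const_mul _).sub h1
  have h4 : ∀ᶠ x : ℝ in atTop, 0 < (1 + η) * (Chebyshev.theta ((1 + η) * x) / ((1 + η) * x)) -
      Chebyshev.theta x / x := h3.eventually (lt_mem_nhds (by linarith))
  filter_upwards [h4, eventually_gt_atTop 0] with x hx hx0
  by_contra hcon
  push Not at hcon
  have h5 : Chebyshev.theta ((1 + η) * x) ≤ Chebyshev.theta x := by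
    unfold Chebyshev.theta
    apply Finset.sum_le_sum_of_subset_of_nonneg
    · intro p hp
      rw [Finset.mem_filter, Finset.mem_Ioc] at hp ⊢
      refine ⟨⟨hp.1.1, ?_⟩, hp.2⟩
      rw [Nat.le_floor_iff hx0.le]
      by_contra hlt
      have h6 := hcon p hp.2 (not_le.1 hlt)
      have h7 := (Nat.le_floor_iff (by positivity)).1 hp.1.2
      linarith
    · intro p hp _
      rw [Finset.mem_filter, Finset.mem_Ioc] at hp
      exact Real.log_nonneg (by exact_mod_cast hp.1.1)
  have h8 : (1 + η) * (Chebyshev.theta ((1 + η) * x) / ((1 + η) * x)) =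
      Chebyshev.theta ((1 + η) * x) / x := by
    field_simp
  rw [h8, ← sub_div] at hx
  have h9 : 0 < Chebyshev.theta ((1 + η) * x) - Chebyshev.theta x := by
    by_contra hle
    have := div_nonpos_of_nonpos_of_nonneg (not_lt.1 hle) hx0.le
    linarith
  linarith

/-- T6: primes of the right size (prime number theorem) -/
theorem exists_primes {l : ℝ} (hl : 0 < l) : ∃ Q : ℕ → ℕ, (∀ᶠ k in Filter.atTop, (Q k).Prime) ∧
    Filter.Tendsto (fun k : ℕ => (k : ℝ) / (Q k : ℝ)) Filter.atTop (nhds l) := by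
  classical
  have hex : ∀ k : ℕ, ∃ p : ℕ, p.Prime ∧ (k : ℝ) / l < (p : ℝ) := by
    intro k
    obtain ⟨p, hp1, hp2⟩ := Nat.exists_infinite_primes (⌊(k : ℝ) / l⌋₊ + 1)
    exact ⟨p, hp2, lt_of_lt_of_le (Nat.lt_floor_add_one _) (by exact_mod_cast hp1)⟩
  refine ⟨fun k => Nat.find (hex k), Eventually.of_forall fun k => (Nat.find_spec (hex k)).1, ?_⟩
  rw [tendsto_order]
  constructor
  · intro a ha
    set a' := max a (l / 2) with ha'
    have hpos : 0 < a' := lt_of_lt_of_le (by positivity) (le_max_right _ _)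
    have hlt : a' < l := max_lt ha (by linarith)
    set η := (l / a' - 1) / 2 with hη
    have h1 : 1 < l / a' := by rw [lt_div_iff₀ hpos]; linarith
    have hη0 : 0 < η := by rw [hη]; linarith
    have h2 : (1 + η) * a' < l := by
      have : 1 + η < l / a' := by rw [hη]; linarith
      rwa [lt_div_iff₀ hpos] at this
    have h3 : Tendsto (fun k : ℕ => (k : ℝ) / l) atTop atTop :=
      tendsto_natCast_atTop_atTop.atTop_div_const hl
    filter_upwards [h3.eventually (prime_short hη0), eventually_gt_atTop 0] with k hk hk0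
    obtain ⟨p, hp, hp1, hp2⟩ := hk
    have hk0' : (0 : ℝ) < k := by exact_mod_cast hk0
    have h4 : ((Nat.find (hex k) : ℕ) : ℝ) ≤ p := by exact_mod_cast Nat.find_min' (hex k) ⟨hp, hp1⟩
    have h5 := (Nat.find_spec (hex k)).2
    have h6 : (0 : ℝ) < (Nat.find (hex k) : ℕ) := lt_of_le_of_lt (by positivity) h5
    refine lt_of_le_of_lt (le_max_left a (l / 2)) ?_
    rw [lt_div_iff₀ h6]
    calc a' * ((Nat.find (hex k) : ℕ) : ℝ) ≤ a' * ((1 + η) * ((k : ℝ) / l)) := by
            gcongr
            exact h4.trans hp2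
      _ = ((1 + η) * a') * ((k : ℝ) / l) := by ring
      _ < l * ((k : ℝ) / l) := by
            apply mul_lt_mul_of_pos_right h2
            positivity
      _ = k := by field_simp
  · intro b hb
    filter_upwards [] with k
    have h5 := (Nat.find_spec (hex k)).2
    have h6 : (0 : ℝ) < (Nat.find (hex k) : ℕ) := lt_of_le_of_lt (by positivity) h5
    refine lt_of_le_of_lt ?_ hb
    rw [div_le_iff₀ h6]
    rw [div_lt_iff₀ hl] at h5
    linarith

end Pool.Agent.H242R2.Turan
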